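import Mathlib

namespace Pool.Agent.Results.MP_a3bfba_gt.Sum
open Set
open scoped RealInnerProductSpace

abbrev E (m : ℕ) := EuclideanSpace ℝ (Fin m)

structure IsMetric {X : Type*} (d : X → X → ℝ) : Prop where
  eq_zero : ∀ x y, d x y = 0 ↔ x = y
  symm : ∀ x y, d x y = d y x
  tri : ∀ x y z, d x z ≤ d x y + d y z

structure Straight {m : ℕ} (d : E m → E m → ℝ) : Prop where
  metric : IsMetric d
  top : ∀ U : Set (E m), IsOpen U ↔ ∀ x ∈ U, ∃ ε > 0, ∀ y, d x y < ε → y ∈ U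
  seg : ∀ x y z, x ≠ y → y ≠ z → x ≠ z → (d x y + d y z = d x z ↔ y ∈ openSegment ℝ x z)
  line : ∀ x y, x ≠ y → ∃ f : ℝ → E m, range f = (line[ℝ, x, y] : AffineSubspace ℝ (E m)) ∧ ∀ s t, d (f s) (f t) = |s - t|

def RegularPolygons {X : Type*} (d : X → X → ℝ) : Prop :=
  ∀ n : ℕ, 3 ≤ n → ∀ A B : X, A ≠ B → ∃ P : ZMod n → X, Function.Injective P ∧
    (∀ i j h, d (P i) (P j) = d (P (i + h)) (P (j + h))) ∧ ∃ i, P i = A ∧ P (i + 1) = B

noncomputable def hdist {m : ℕ} (k : ℝ) (x y : E m) : ℝ :=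
  Real.arcosh (√(1 + ‖x‖ ^ 2) * √(1 + ‖y‖ ^ 2) - ⟪x, y⟫) / √k

theorem hyp {r : ℕ} {k : ℝ} (hk : 0 < k) (x y : E r) {t : ℝ} (h : t = hdist k x y) :
    √(1 + ‖x‖ ^ 2) * √(1 + ‖y‖ ^ 2) - ⟪x, y⟫ = Real.cosh (√k * t) := by
  rw [h, hdist, mul_div_cancel₀ _ (Real.sqrt_pos.2 hk).ne', Real.cosh_arcosh]
  have h1 := real_inner_le_norm x y
  have h2 : 1 + ‖x‖ * ‖y‖ ≤ √(1 + ‖x‖ ^ 2) * √(1 + ‖y‖ ^ 2) := by
    rw [← Real.sqrt_mul (by positivity)]
    exact Real.le_sqrt_of_sq_le (by nlinarith [sq_nonneg (‖x‖ - ‖y‖)])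
  linarith

theorem mid {r : ℕ} (a b o c : E r) (a0 b0 o0 c0 C : ℝ) (ha : a0 ^ 2 = 1 + ‖a‖ ^ 2)
    (hb : b0 ^ 2 = 1 + ‖b‖ ^ 2) (ho : o0 ^ 2 = 1 + ‖o‖ ^ 2) (h1 : a0 * o0 - ⟪a, o⟫ = C)
    (h2 : b0 * o0 - ⟪b, o⟫ = C) (h3 : a0 * b0 - ⟪a, b⟫ = 2 * C ^ 2 - 1) :
    (a0 * c0 - ⟪a, c⟫) + (b0 * c0 - ⟪b, c⟫) = 2 * C * (o0 * c0 - ⟪o, c⟫) := by
  set w := a + b - (2 * C) • o with hw
  have e1 : ⟪w, o⟫ = (a0 + b0 - 2 * C * o0) * o0 := by
    simp only [hw, inner_sub_left, inner_add_left, real_inner_smul_left,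
      real_inner_self_eq_norm_sq]
    linear_combination -h1 - h2 + 2 * C * ho
  have e2 : ‖w‖ ^ 2 = (a0 + b0 - 2 * C * o0) ^ 2 := by
    rw [hw, norm_sub_sq_real, norm_add_sq_real, norm_smul, mul_pow, Real.norm_eq_abs, sq_abs,
      real_inner_smul_right, inner_add_left]
    linear_combination -ha - hb - 4 * C ^ 2 * ho + 4 * C * h1 + 4 * C * h2 - 2 * h3
  have e3 : ⟪w, o⟫ ^ 2 ≤ (‖w‖ * ‖o‖) ^ 2 := by
    rw [← sq_abs]
    exact pow_le_pow_left₀ (abs_nonneg _) (abs_real_inner_le_norm w o) 2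
  rw [e1, mul_pow, mul_pow, ← e2, ho] at e3
  have e4 : ‖w‖ ^ 2 = 0 := by nlinarith [sq_nonneg ‖w‖]
  have e5 : a0 + b0 - 2 * C * o0 = 0 := pow_eq_zero_iff two_ne_zero |>.1 (e2 ▸ e4)
  have e6 : ⟪w, c⟫ = 0 := by
    rw [norm_eq_zero.1 (pow_eq_zero_iff two_ne_zero |>.1 e4), inner_zero_left]
  simp only [hw, inner_sub_left, inner_add_left, real_inner_smul_left] at e6
  linear_combination c0 * e5 - e6

theorem ch (n : ℕ) : Real.cosh (n * Real.log 2) = (2 ^ n + (2 ^ n)⁻¹) / 2 := by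
  rw [Real.cosh_eq, Real.exp_neg, Real.exp_nat_mul, Real.exp_log two_pos]

theorem result (m : ℕ) (hm : 3 ≤ m) : ∃ d : E m → E m → ℝ, Straight d ∧ RegularPolygons d ∧
    (∀ (r : ℕ) (f : E m → E r), ¬ ∀ x y, d x y = dist (f x) (f y)) ∧
    ∀ (r : ℕ) (k : ℝ), 0 < k → ∀ f : E m → E r, ¬ ∀ x y, d x y = hdist k (f x) (f y) := by
  obtain ⟨m, rfl⟩ := Nat.exists_eq_add_of_le' hm
  let e : E (m + 3) := EuclideanSpace.single 2 1
  let p : E (m + 3) → E (m + 3) := fun x => x - x 2 • e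
  let n : E (m + 3) → ℝ := fun x => ‖x‖ + |x 0|
  let Z : E (m + 3) → ℂ := fun x => ⟨n (p x), x 2⟩
  let D : E (m + 3) → ℝ := fun x => ‖Z x‖
  have pa : ∀ x y, p (x + y) = p x + p y := fun x y => by
    simp only [p, PiLp.add_apply]; module
  have ps : ∀ (c : ℝ) x, p (c • x) = c • p x := fun c x => by
    simp only [p, PiLp.smul_apply, smul_eq_mul]; module
  have ns : ∀ (c : ℝ) x, n (c • x) = |c| * n x := fun c x => by
    simp only [n, norm_smul, PiLp.smul_apply, smul_eq_mul, abs_mul, Real.norm_eq_abs]; ring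
  have n0 : ∀ x, ‖x‖ ≤ n x := fun x => le_add_of_nonneg_right (abs_nonneg _)
  have nn : ∀ x, 0 ≤ n x := fun x => (norm_nonneg _).trans (n0 x)
  have na : ∀ x y, n (x + y) ≤ n x + n y := fun x y => by
    have := abs_add_le (x 0) (y 0)
    have := norm_add_le x y
    simp only [n, PiLp.add_apply]; linarith
  have Dq : ∀ x, D x = √(n (p x) ^ 2 + x 2 ^ 2) := fun x => by
    simp only [D, Z, Complex.norm_def, Complex.normSq_mk, sq]
  have Ds : ∀ (c : ℝ) x, D (c • x) = |c| * D x := fun c x => by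
    rw [Dq, Dq, ps, ns, ← Real.sqrt_sq (abs_nonneg c), ← Real.sqrt_mul (sq_nonneg _),
      Real.sqrt_sq (abs_nonneg c), mul_pow, sq_abs, PiLp.smul_apply, smul_eq_mul]
    congr 1; ring
  have Dn : ∀ x y, D (x - y) = D (y - x) := fun x y => by
    rw [← neg_sub, ← neg_one_smul ℝ, Ds]; simp
  have D1 : ∀ x y, D (x + y) ≤ ‖Z x + Z y‖ := fun x y => by
    rw [Dq, Complex.norm_def, Complex.normSq_apply, ← sq, ← sq, pa]
    exact Real.sqrt_le_sqrt (add_le_add (pow_le_pow_left₀ (nn _) (na _ _) 2) le_rfl)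
  have Da : ∀ x y, D (x + y) ≤ D x + D y := fun x y => (D1 x y).trans (norm_add_le _ _)
  have Dl : ∀ x, ‖x‖ ≤ 2 * D x := fun x => by
    have h1 : n (p x) ≤ D x := Complex.re_le_norm (Z x)
    have h2 : |x 2| ≤ D x := Complex.abs_im_le_norm (Z x)
    have h3 := norm_add_le (p x) (x 2 • e)
    rw [sub_add_cancel, norm_smul, Real.norm_eq_abs] at h3
    have h4 : ‖e‖ = 1 := by simp [e]
    rw [h4] at h3
    linarith [n0 (p x)]
  have D0 : D 0 = 0 := by simpa using Ds 0 0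
  have Dz : ∀ x, D x = 0 → x = 0 := fun x h => norm_le_zero_iff.1 (by linarith [Dl x])
  have Dp : ∀ x, x ≠ 0 → 0 < D x := fun x h => (norm_nonneg _).lt_of_ne fun h' => h (Dz x h'.symm)
  have De : ∀ x y, x ≠ 0 → y ≠ 0 → D (x + y) = D x + D y → ∃ r : ℝ, 0 < r ∧ y = r • x := by
    intro x y hx hy h
    have h1 : ‖Z x + Z y‖ = ‖Z x‖ + ‖Z y‖ := le_antisymm (norm_add_le _ _) (h ▸ D1 x y)
    obtain ⟨r, hr, h2⟩ := (sameRay_iff_norm_add.2 h1).exists_pos_left
      (norm_pos_iff.1 (Dp x hx)) (norm_pos_iff.1 (Dp y hy))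
    have h3 : r * n (p x) = n (p y) := by simpa [Z] using congrArg Complex.re h2
    have h4 : r * x 2 = y 2 := by simpa [Z] using congrArg Complex.im h2
    have h5 : n (p x + p y) = n (p x) + n (p y) := by
      have h6 : D (x + y) = ‖Z x + Z y‖ := h.trans h1.symm
      rw [Dq, Complex.norm_def, Complex.normSq_apply, ← sq, ← sq, pa,
        Real.sqrt_inj (by positivity) (by positivity)] at h6
      exact (pow_left_inj₀ (nn _) (add_nonneg (nn _) (nn _)) two_ne_zero).1 (add_right_cancel h6)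
    have h6 : SameRay ℝ (p x) (p y) := sameRay_iff_norm_add.2 (le_antisymm (norm_add_le _ _) (by
      have := abs_add_le (p x 0) (p y 0)
      simp only [n, PiLp.add_apply] at h5
      linarith))
    have h7 : p y = r • p x := by
      by_cases h0 : p x = 0
      · have : n (p y) = 0 := by rw [← h3, h0]; simp [n]
        rw [h0, smul_zero]
        exact norm_le_zero_iff.1 (this ▸ n0 _)
      · obtain ⟨s, hs, h8⟩ := h6.exists_nonneg_left h0
        rw [← h8, ns, abs_of_nonneg hs] at h3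
        rw [← h8, mul_right_cancel₀ ((norm_pos_iff.2 h0).trans_le (n0 _)).ne' h3]
    refine ⟨r, hr, ?_⟩
    simp only [p, ← h4] at h7
    rw [smul_sub, smul_smul] at h7
    exact sub_left_injective h7
  have Dc : Continuous D := by
    rw [funext Dq]; simp only [n, p]; fun_prop
  let u : E (m + 3) := EuclideanSpace.single 0 1
  let v : E (m + 3) := EuclideanSpace.single 1 1
  have i02 : (0 : Fin (m + 3)) ≠ 2 := fun h => absurd (show 0 = 2 from congrArg Fin.val h) (by decide)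
  have i12 : (1 : Fin (m + 3)) ≠ 2 := fun h => absurd (show 1 = 2 from congrArg Fin.val h) (by decide)
  have ex : ∀ a b c : ℝ, 0 ≤ c → a ^ 2 + b ^ 2 = c ^ 2 → D (a • u + b • v) = c + |a| := by
    intro a b c hc h
    have h2 : (a • u + b • v) 2 = 0 := by simp [u, v, i02, i12, i02.symm, i12.symm]
    have h3 : ‖a • u + b • v‖ = c := by
      rw [← pow_left_inj₀ (norm_nonneg _) hc two_ne_zero, norm_add_sq_real, ← h]
      simp [u, v, norm_smul, inner_smul_left, inner_smul_right, EuclideanSpace.inner_single_left]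
    rw [Dq]
    simp only [p, n, h2, zero_smul, sub_zero, h3]
    rw [zero_pow two_ne_zero, add_zero, Real.sqrt_sq (by positivity)]
    simp [u, v]
  have cfg : ∀ s : ℝ, 0 < s → ∃ a b o c : E (m + 3), D (a - o) = 6 * s ∧ D (b - o) = 6 * s ∧
      D (a - b) = 12 * s ∧ D (a - c) = 8 * s ∧ D (b - c) = 8 * s ∧ D (o - c) = 4 * s := by
    intro s hs
    have h1 : |3 * s| = 3 * s := abs_of_pos (by positivity)
    refine ⟨(3 * s) • u, (-(3 * s)) • u, 0, (4 * s) • v, ?_, ?_, ?_, ?_, ?_, ?_⟩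
    · rw [show (3 * s) • u - 0 = (3 * s) • u + (0 : ℝ) • v by module,
        ex _ _ (3 * s) (by positivity) (by ring), h1]; ring
    · rw [show (-(3 * s)) • u - 0 = (-(3 * s)) • u + (0 : ℝ) • v by module,
        ex _ _ (3 * s) (by positivity) (by ring), abs_neg, h1]; ring
    · rw [show (3 * s) • u - (-(3 * s)) • u = (6 * s) • u + (0 : ℝ) • v by module,
        ex _ _ (6 * s) (by positivity) (by ring), abs_of_pos (by positivity)]; ring
    · rw [show (3 * s) • u - (4 * s) • v = (3 * s) • u + (-(4 * s)) • v by module,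
        ex _ _ (5 * s) (by positivity) (by ring), h1]; ring
    · rw [show (-(3 * s)) • u - (4 * s) • v = (-(3 * s)) • u + (-(4 * s)) • v by module,
        ex _ _ (5 * s) (by positivity) (by ring), abs_neg, h1]; ring
    · rw [show 0 - (4 * s) • v = (0 : ℝ) • u + (-(4 * s)) • v by module,
        ex _ _ (4 * s) (by positivity) (by ring)]; simp
  refine ⟨fun x y => D (x - y), ⟨⟨fun x y => ⟨fun h => sub_eq_zero.1 (Dz _ h), fun h => by
    rw [h, sub_self, D0]⟩, Dn, fun x y z => by rw [← sub_add_sub_cancel x y z]; exact Da _ _⟩,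
    fun U => ⟨fun hU x hx => ?_, fun h => ?_⟩, fun x y z h1 h2 h3 => ⟨fun h => ?_, fun h => ?_⟩,
    fun x y h => ?_⟩, fun N hN A B hAB => ?_, fun r f h => ?_, fun r k hk f h => ?_⟩
  · obtain ⟨ε, hε, h⟩ := Metric.isOpen_iff.1 hU x hx
    exact ⟨ε / 2, by positivity, fun y hy => h (by
      rw [Metric.mem_ball, dist_comm, dist_eq_norm]; linarith [Dl (x - y)])⟩
  · refine isOpen_iff_mem_nhds.2 fun x hx => ?_
    obtain ⟨ε, hε, h⟩ := h x hx
    exact Filter.mem_of_superset ((isOpen_lt (Dc.comp (continuous_const.sub continuous_id))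
      continuous_const).mem_nhds (show D (x - x) < ε by rwa [sub_self, D0])) h
  · obtain ⟨r, hr, h⟩ := De _ _ (sub_ne_zero.2 h1) (sub_ne_zero.2 h2)
      (by rw [sub_add_sub_cancel]; exact h.symm)
    refine ⟨r / (1 + r), 1 / (1 + r), by positivity, by positivity, by field_simp; ring, ?_⟩
    have : z = y - r • (x - y) := by rw [← h]; abel
    rw [this]
    match_scalars <;> field_simp <;> ring
  · obtain ⟨a, b, ha, hb, hab, rfl⟩ := h
    obtain rfl : a = 1 - b := by linarith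
    have e1 : x - ((1 - b) • x + b • z) = b • (x - z) := by module
    have e2 : (1 - b) • x + b • z - z = (1 - b) • (x - z) := by module
    simp only [e1, e2, Ds, abs_of_pos ha, abs_of_pos hb]
    ring
  · have hp := Dp _ (sub_ne_zero.2 h.symm)
    refine ⟨fun s => AffineMap.lineMap x y (s / D (y - x)), ?_, fun s t => ?_⟩
    · ext z
      simp only [mem_range, SetLike.mem_coe, mem_affineSpan_pair_iff_exists_lineMap_eq]
      exact ⟨fun ⟨s, h⟩ => ⟨_, h⟩, fun ⟨s, h⟩ =>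
        ⟨s * D (y - x), by rwa [mul_div_cancel_right₀ _ hp.ne']⟩⟩
    · have : AffineMap.lineMap x y (s / D (y - x)) - AffineMap.lineMap x y (t / D (y - x)) =
          ((s - t) / D (y - x)) • (y - x) := by
        simp only [AffineMap.lineMap_apply, vsub_eq_sub, vadd_eq_add, sub_div]; module
      simp only [this, Ds, abs_div, abs_of_pos hp, div_mul_cancel₀ _ hp.ne']
  · have : NeZero N := ⟨by omega⟩
    have : Fact (1 < N) := ⟨by omega⟩
    have e2 : e 2 = 1 := by simp [e]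
    obtain ⟨g, g2, g1, hg⟩ : ∃ g : E (m + 3), g 2 = 0 ∧ n g = 1 ∧ p (B - A) = n (p (B - A)) • g := by
      by_cases h0 : p (B - A) = 0
      · exact ⟨v, by simp [v, i12.symm], by simp [n, v], by rw [h0]; simp [n]⟩
      · have := (norm_pos_iff.2 h0).trans_le (n0 _)
        refine ⟨(n (p (B - A)))⁻¹ • p (B - A), ?_, ?_, by rw [smul_inv_smul₀ this.ne']⟩
        · simp only [p, PiLp.smul_apply, PiLp.sub_apply, e2, smul_eq_mul]; ring
        · rw [ns, abs_of_pos (inv_pos.2 this), inv_mul_cancel₀ this.ne']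
    let φ : ℂ → E (m + 3) := fun z => z.re • g + z.im • e
    have φs : ∀ z w, φ z - φ w = φ (z - w) := fun z w => by
      simp only [φ, Complex.sub_re, Complex.sub_im]; module
    have φn : ∀ z, D (φ z) = ‖z‖ := fun z => by
      have h1 : φ z 2 = z.im := by
        simp only [φ, PiLp.add_apply, PiLp.smul_apply, g2, e2, smul_eq_mul]; ring
      have h2 : p (φ z) = z.re • g := by simp only [p, h1]; simp only [φ]; module
      rw [Dq, h1, h2, ns, g1, mul_one, sq_abs, Complex.norm_def, Complex.normSq_apply, sq, sq]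
    let χ := ZMod.stdAddChar (N := N)
    have χi : Function.Injective χ := ZMod.injective_stdAddChar
    have χ1 : χ 1 - 1 ≠ 0 := fun h => one_ne_zero (χi (by rw [χ.map_zero_eq_one, sub_eq_zero.1 h]))
    have z0 : Z (B - A) ≠ 0 := norm_pos_iff.1 (Dp _ (sub_ne_zero.2 hAB.symm))
    let c := Z (B - A) / (χ 1 - 1)
    have key : ∀ i j, D (A + φ (c * (χ i - 1)) - (A + φ (c * (χ j - 1)))) = ‖c‖ * ‖χ i - χ j‖ := by
      intro i j
      rw [add_sub_add_left_eq_sub, φs, φn, ← norm_mul]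
      congr 1; ring
    refine ⟨fun j => A + φ (c * (χ j - 1)), fun i j h => χi ?_, fun i j h => ?_, 0, by simp [φ], ?_⟩
    · have := key i j
      beta_reduce at h
      rw [h, sub_self, D0] at this
      exact sub_eq_zero.1 (norm_eq_zero.1 ((mul_eq_zero.1 this.symm).resolve_left
        (norm_ne_zero_iff.2 (div_ne_zero z0 χ1))))
    · beta_reduce
      rw [key, key, χ.map_add_eq_mul, χ.map_add_eq_mul, ← sub_mul, norm_mul, AddChar.norm_apply,
        mul_one]
    · simp only [zero_add, c, div_mul_cancel₀ _ χ1, φ, Z]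
      rw [← hg]
      simp only [p]
      abel
  · obtain ⟨a, b, o, c, h1, h2, h3, h4, h5, h6⟩ := cfg 1 one_pos
    simp only [h] at h1 h2 h3 h4 h5 h6
    have h7 : f o = midpoint ℝ (f a) (f b) :=
      eq_midpoint_of_dist_eq_half (by rw [h1, h3]; norm_num) (by rw [dist_comm, h2, h3]; norm_num)
    have := EuclideanGeometry.dist_sq_add_dist_sq_eq_two_mul_dist_midpoint_sq_add_half_dist_sq
      (f c) (f a) (f b)
    rw [← h7, dist_comm (f c), dist_comm (f c), dist_comm (f c), h3, h4, h5, h6] at this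
    norm_num at this
  · have hs := Real.sqrt_pos.2 hk
    obtain ⟨a, b, o, c, h1, h2, h3, h4, h5, h6⟩ :=
      cfg (Real.log 2 / √k) (div_pos (Real.log_pos one_lt_two) hs)
    have key : ∀ (x y) (j : ℕ), D (x - y) = j * (Real.log 2 / √k) →
        √(1 + ‖f x‖ ^ 2) * √(1 + ‖f y‖ ^ 2) - ⟪f x, f y⟫ = (2 ^ j + (2 ^ j)⁻¹) / 2 := by
      intro x y j hj
      rw [hyp hk _ _ (h x y), ← ch]
      congr 1
      simp only [hj]
      field_simp
    have := mid (f a) (f b) (f o) (f c) _ _ _ (√(1 + ‖f c‖ ^ 2)) _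
      (Real.sq_sqrt (by positivity)) (Real.sq_sqrt (by positivity)) (Real.sq_sqrt (by positivity))
      (key a o 6 h1) (key b o 6 h2) (by rw [key a b 12 h3]; norm_num)
    rw [key a c 8 h4, key b c 8 h5, key o c 4 h6] at this
    norm_num at this

end Pool.Agent.Results.MP_a3bfba_gt.Sum
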